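import Pool.Agent.H78.S.Targets

/-!
# Row KAP of sgt_modules: the lines `E i j`
-/

set_option autoImplicit false

namespace Pool.Agent.H99.S

open Set Pool.Agent.H77.BC Pool.Agent.H78.S
open scoped Pointwise

theorem card_ne_two {n : ℕ} (i : Fin (n + 2)) (hi : i ≠ 0) :
    (Finset.univ.filter (fun j : Fin (n + 2) => j ≠ 0 ∧ i ≠ j)).card = n := by
  have h1 : Finset.univ.filter (fun j : Fin (n + 2) => j ≠ 0 ∧ i ≠ j) =
      (Finset.univ.erase (0 : Fin (n + 2))).erase i := by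
    ext j
    simp only [Finset.mem_filter, Finset.mem_univ, true_and, Finset.mem_erase, and_true]
    constructor
    · rintro ⟨h1, h2⟩
      exact ⟨h2.symm, h1⟩
    · rintro ⟨h1, h2⟩
      exact ⟨h2, h1.symm⟩
  rw [h1, Finset.card_erase_of_mem (by
    rw [Finset.mem_erase]
    exact ⟨hi, Finset.mem_univ _⟩), Finset.card_erase_of_mem (Finset.mem_univ _),
    Finset.card_univ, Fintype.card_fin]
  rfl

theorem pf_KAP (hSHK : T_SHK) (hSPB : T_SPB) (hLCJ : T_LCJ) (hSYM : T_SYM) (hTEK : T_TEK) :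
    T_KAP := by
  classical
  intro M U G S _ _ _ _ n x hF hI hN ω hω
  have hsh := hSHK U x hF hN ω hω
  have hsp := hSPB U x hF hI hN ω hω
  have hlc := hLCJ U x hF
  set T := TT U G x 0 with hT
  have hex : ∀ i j : Fin (n + 2), ∃ E : Set (S × S), i ≠ 0 → j ≠ 0 → i ≠ j →
      E ∈ LL U G x i ∧ ∃ E' ∈ LL U G x j, kap T E = kap T E' := by
    intro i j
    by_cases h : i ≠ 0 ∧ j ≠ 0 ∧ i ≠ j
    · obtain ⟨E, hE, E', hE', h1⟩ := hsh i j h.1 h.2.1 h.2.2
      exact ⟨E, fun _ _ _ => ⟨hE, E', hE', h1⟩⟩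
    · exact ⟨∅, fun h1 h2 h3 => absurd ⟨h1, h2, h3⟩ h⟩
  choose e he using hex
  -- injectivity
  have hinj : ∀ i j l, i ≠ 0 → j ≠ 0 → l ≠ 0 → i ≠ j → i ≠ l → e i j = e i l → j = l := by
    intro i j l hi hj hl hij hil h
    by_contra hjl
    obtain ⟨hE, E', hE', h1⟩ := he i j hi hj hij
    obtain ⟨_, E'', hE'', h2⟩ := he i l hi hl hil
    rw [← h] at h2
    exact hsp i j l hi hj hl hij hil hjl (e i j) hE E' hE' E'' hE'' h1 h2
  -- all lines
  have hall : ∀ i, i ≠ 0 → ∀ F ∈ LL U G x i, ∃ j, j ≠ 0 ∧ i ≠ j ∧ F = e i j := by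
    intro i hi F hF'
    set J := Finset.univ.filter (fun j : Fin (n + 2) => j ≠ 0 ∧ i ≠ j) with hJ
    have h1 : (e i) '' (J : Set (Fin (n + 2))) = LL U G x i := by
      refine Set.eq_of_subset_of_ncard_le ?_ ?_ (hN.fin i hi)
      · rintro E ⟨j, hj, rfl⟩
        rw [Finset.mem_coe, hJ, Finset.mem_filter] at hj
        exact (he i j hi hj.2.1 hj.2.2).1
      · rw [hN.card i hi, Set.ncard_image_of_injOn, Set.ncard_coe_finset, hJ, card_ne_two i hi]
        intro j hj l hl h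
        rw [Finset.mem_coe, hJ, Finset.mem_filter] at hj hl
        exact hinj i j l hi hj.2.1 hl.2.1 hj.2.2 hl.2.2 h
    rw [← h1] at hF'
    obtain ⟨j, hj, h2⟩ := hF'
    rw [Finset.mem_coe, hJ, Finset.mem_filter] at hj
    exact ⟨j, hj.2.1, hj.2.2, h2.symm⟩
  -- characterisation
  have hch : ∀ i j, i ≠ 0 → j ≠ 0 → i ≠ j → ∀ E ∈ LL U G x i, ∀ E' ∈ LL U G x j,
      kap T E = kap T E' → E = e i j := by
    intro i j hi hj hij E hE E' hE' h
    obtain ⟨l, hl, hil, h1⟩ := hall i hi E hE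
    by_cases hjl : j = l
    · rw [hjl]
      exact h1
    · exfalso
      obtain ⟨_, E'', hE'', h2⟩ := he i l hi hl hil
      rw [← h1] at h2
      exact hsp i j l hi hj hl hij hil hjl E hE E' hE' E'' hE'' h h2
  have hsym : ∀ i j, i ≠ 0 → j ≠ 0 → i ≠ j → kap T (e i j) = kap T (e j i) := by
    intro i j hi hj hij
    obtain ⟨hE, F, hF', h1⟩ := he i j hi hj hij
    have h2 := hch j i hj hi hij.symm F hF' (e i j) hE h1.symm
    rw [← h2]
    exact h1
  have hthree : ∀ i j l m, i ≠ 0 → j ≠ 0 → i ≠ j → l ≠ 0 → m ≠ 0 → l ≠ m →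
      kap T (e i j) = kap T (e l m) → l = i ∨ l = j := by
    intro i j l m hi hj hij hl hm hlm h
    by_contra hc
    rw [not_or] at hc
    exact hsp i j l hi hj hl hij (Ne.symm hc.1) (Ne.symm hc.2) (e i j) (he i j hi hj hij).1
      (e j i) (he j i hj hi hij.symm).1 (e l m) (he l m hl hm hlm).1 (hsym i j hi hj hij) h
  refine ⟨e, ⟨fun i j hi hj hij => (he i j hi hj hij).1, hall, hinj, hsym, ?_, ?_⟩⟩
  · intro g σ hg hσ i j hi hj hij
    obtain ⟨hE, F, hF', h1⟩ := he i j hi hj hij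
    obtain ⟨h2, h3, _⟩ := hlc g σ hg hσ i hi (e i j) hE
    obtain ⟨h4, h5, _⟩ := hlc g σ hg hσ j hj F hF'
    have hσ0 : ∀ l, l ≠ 0 → σ l ≠ 0 := by
      intro l hl h
      rw [← hσ] at h
      exact hl (σ.injective h)
    refine hch (σ i) (σ j) (hσ0 i hi) (hσ0 j hj) (fun h => hij (σ.injective h)) _ h2 _ h4 ?_
    rw [h3, h5, h1]
  · intro i j l m hi hj hij hl hm hlm h
    have h1 := hthree i j l m hi hj hij hl hm hlm h
    have h2 : m = i ∨ m = j := by
      refine hthree i j m l hi hj hij hm hl hlm.symm ?_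
      rw [h]
      exact hsym l m hl hm hlm
    rcases h1 with h1 | h1 <;> rcases h2 with h2 | h2
    · exact absurd (h1.trans h2.symm) hlm
    · exact Or.inl ⟨h1.symm, h2.symm⟩
    · exact Or.inr ⟨h2.symm, h1.symm⟩
    · exact absurd (h1.trans h2.symm) hlm

end Pool.Agent.H99.S
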