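import Pool.Agent.H78.S.Targets

/-!
# Row TAB of sgt_modules: the group `TT U G x 0` is commutative
-/

set_option autoImplicit false

namespace Pool.Agent.H99.S

open Set Pool.Agent.H77.BC Pool.Agent.H78.S
open scoped Pointwise

theorem D_Fx' {M : Type} (U : RU M) {G S : Type} [Group G] [MulAction G S] [Cod M G]
    [Cod M S] [DG U G] [Ful U S] (hact : DFn U (fun p : G × S => p.1 • p.2)) (H : Subgroup G)
    (o : S) (h : U.D (H : Set G)) : U.D (Fx H o : Set G) := by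
  have h1 : DFn U (fun g : G => g • o) :=
    DFn_comp (U := U) (f := fun g : G => (g, o)) hact (DFn_pair DFn_id (DFn_const o))
  have h2 : U.D {g : G | g • o ∈ ({o} : Set S)} := DFn_preim h1 (D_singleton o)
  have h3 := D_inter h h2
  have e : (Fx H o : Set G) = (H : Set G) ∩ {g : G | g • o ∈ ({o} : Set S)} := by
    ext g
    simp [Fx, MulAction.mem_stabilizer_iff]
  rw [e]
  exact h3

theorem pf_TAB (hLAB : T_LAB) (hZER : T_ZER) (hHIJ : T_HIJ) (hCCA : T_CCA) (hCCB : T_CCB)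
    (hCFN : T_CFN) (hBGA : T_BGA) : T_TAB := by
  classical
  intro M U G S _ _ _ _ n x hF hR
  have := hF.dg
  have := hF.ful
  have h01 : (0 : Fin (n + 2)) ≠ 1 := by
    have h1s : (1 : Fin (n + 2)) = (0 : Fin (n + 1)).succ := rfl
    rw [h1s]
    exact (Fin.succ_ne_zero _).symm
  obtain ⟨-, hTc, -, -, -, -, -, -, hBig, -, -, -, hFx⟩ := hHIJ U x hF 0 1 h01
  obtain ⟨l1, l2, l3, l4, l5, -, -, -, -⟩ := hLAB U x hF {0}ᶜ (by simp)
  have hz := hZER U x hF
  set T := TT U G x 0 with hT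
  set Lm := lam U G x {0}ᶜ with hLm
  have dFx : U.D (Fx T (x 0) : Set G) := D_Fx' U hF.act T (x 0) hTc.1
  -- ranks
  have r1 : U.R (Fx T (x 0) : Set G) ≤ U.R (Lm : Set G) :=
    (l_RKA U).mono dFx l1 ⟨1, Subgroup.one_mem _⟩ l5
  have r2 : U.R (Lm : Set G) ≤ U.R (Fx T (x 0) : Set G) := by omega
  -- components
  obtain ⟨a1, a2, -, a4⟩ := hCCA U Lm l1
  obtain ⟨b1, b2, -, b4⟩ := hCCA U (Fx T (x 0)) dFx
  have hF0 : cc U (Fx T (x 0)) = cc U Lm :=
    (hCCB U Lm (cc U (Fx T (x 0))) l1 b2 (b1.trans l5)).2 (by rw [b4]; exact r2)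
  set L0 := cc U Lm with hL0
  have hfix : ∀ l ∈ L0, l • x 0 = x 0 := by
    intro l hl
    rw [← hF0] at hl
    have := b1 hl
    exact (Subgroup.mem_inf.1 this).2
  have hconj : ∀ t ∈ T, cj t L0 = L0 := by
    intro t ht
    obtain ⟨c1, c2, c3⟩ := l_CNJ U t L0 a2.1
    refine (hCCB U Lm (cj t L0) l1 (c3 a2) ?_).2 ?_
    · intro g hg
      rw [mem_cj] at hg
      have h1 := l3 t⁻¹ (T.inv_mem ht) _ (a1 hg)
      have h2 : t⁻¹ * (t * g * t⁻¹) * t⁻¹⁻¹ = g := by group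
      rwa [h2] at h1
    · rw [c2, a4]
  have hL0 : ∀ l ∈ L0, l = 1 := by
    intro l hl
    refine hz l ⟨Orb T (x 0), hBig, ?_⟩
    rintro y ⟨t, ht, rfl⟩
    have h1 : l ∈ cj t⁻¹ L0 := by
      rw [hconj t⁻¹ (T.inv_mem ht)]
      exact hl
    rw [mem_cj] at h1
    have h2 := hfix _ h1
    rw [inv_inv, mul_smul, mul_smul] at h2
    exact inv_smul_eq_iff.1 h2
  have fL0 : (L0 : Set G).Finite := by
    refine (Set.finite_singleton (1 : G)).subset ?_
    intro l hl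
    exact hL0 l hl
  have rL0 : U.R (L0 : Set G) = 0 := ((l_RKA U).fin a2.1 ⟨1, Subgroup.one_mem _⟩).2 fL0
  have rLm : U.R (Lm : Set G) = 0 := by rw [← a4]; exact rL0
  have fLm : (Lm : Set G).Finite := ((l_RKA U).fin l1 ⟨1, Subgroup.one_mem _⟩).1 rLm
  have hcom : Com T := by
    intro a ha b hb
    -- the conjugates of `b` under `T`
    set F : Set G := {y | ∃ t ∈ T, y = t * b * t⁻¹} with hFd
    have fF : F.Finite := by
      refine (fLm.image (fun l => l * b)).subset ?_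
      rintro y ⟨t, ht, rfl⟩
      refine ⟨t * b * t⁻¹ * b⁻¹, l4 t ht b hb, ?_⟩
      show t * b * t⁻¹ * b⁻¹ * b = t * b * t⁻¹
      group
    have h1 := (hCFN U hF.act T hTc).2 F fF (by
      rintro h hh y ⟨t, ht, rfl⟩
      refine ⟨h * t, T.mul_mem hh ht, ?_⟩
      group) a ha b ⟨1, T.one_mem, by group⟩
    exact h1
  refine ⟨hcom, ?_, ?_⟩
  · rw [eq_bot_iff]
    intro t ht
    rw [Subgroup.mem_bot]
    have ht1 : t ∈ T := (Subgroup.mem_inf.1 ht).1
    have ht2 : t • x 0 = x 0 := (Subgroup.mem_inf.1 ht).2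
    refine hz t ⟨Orb T (x 0), hBig, ?_⟩
    rintro y ⟨t', ht', rfl⟩
    rw [← mul_smul, hcom t ht1 t' ht', mul_smul, ht2]
  · omega

end Pool.Agent.H99.S
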